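import Pool.Agent.H187F.Circ2
import Pool.Agent.H187F.Lower2

/-!
# Circulant flip graphs of order close to the degree

Vertices `ZMod n`, blue edges at distance `1, ..., b / 2`, red edges at distance
`b / 2 + 1, ..., (b + r) / 2`.  The closed neighbourhoods are intervals, in which short distances
occur more often than long ones; with `n = b + r + 1 + z` some of the edges inside an interval wrap
around, and all edges are counted exactly.
-/

set_option autoImplicit false

namespace Pool.Agent.Results.MP_1e5ebc_co.CirculantFlipGraphs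

open Classical

/-- The number of edges of `H` with both ends in the closed neighbourhood of `v` in the graph `G`. -/
noncomputable def edgesIn {V : Type} [Fintype V] (G H : SimpleGraph V) (v : V) : ℕ :=
  (H.edgeFinset.filter (fun e => ∀ x ∈ e, x = v ∨ G.Adj v x)).card

/-- The graph `B ⊔ R`, with the edges of `B` coloured blue and the edges of `R` coloured red, is a
`(b, r)`-flip graph: no edge is both blue and red, every vertex is incident with exactly `b` blue
and exactly `r` red edges, and the subgraph induced by the closed neighbourhood of any vertex has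
more blue than red edges. -/
structure IsFlip {V : Type} [Fintype V] (b r : ℕ) (B R : SimpleGraph V) : Prop where
  disjoint : ∀ x y, B.Adj x y → ¬ R.Adj x y
  blue : ∀ v, B.degree v = b
  red : ∀ v, R.degree v = r
  flip : ∀ v, edgesIn (B ⊔ R) R v < edgesIn (B ⊔ R) B v

/-- The set of all orders of `(b, r)`-flip graphs with at least one vertex. -/
def orders (b r : ℕ) : Set ℕ :=
  {n | ∃ (V : Type) (_ : Fintype V) (_ : Nonempty V) (B R : SimpleGraph V),
    IsFlip b r B R ∧ Fintype.card V = n}

/-- The smallest order of a `(b, r)`-flip graph. -/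
noncomputable def h (b r : ℕ) : ℕ := sInf (orders b r)

open Pool.Agent.H187F

theorem near_eq {V : Type} [Fintype V] (B R H : SimpleGraph V) (v : V) :
    edgesIn (B ⊔ R) H v = (near B R H v).card := by
  unfold edgesIn near
  congr 1
  ext e
  simp only [Finset.mem_filter]

theorem IsFlip.hf {V : Type} [Fintype V] {b r : ℕ} {B R : SimpleGraph V} (H : IsFlip b r B R) :
    ∀ v, (near B R R v).card < (near B R B v).card := by
  intro v
  rw [← near_eq, ← near_eq]
  exact H.flip v

theorem circ_mem (p s z : ℕ) (hs : 1 ≤ s) (hz : z ≤ p)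
    (hc : 2 * s * (4 * p + 2 * s + 1) < z * (z + 2 * s - 1)) :
    4 * p + 2 * s + 1 + z ∈ orders (2 * p) (2 * p + 2 * s) := by
  have hn : 2 * (2 * p + s) < 4 * p + 2 * s + 1 + z := by omega
  have : NeZero (4 * p + 2 * s + 1 + z) := ⟨by omega⟩
  have hp' : p < 4 * p + 2 * s + 1 + z := by omega
  have hD' : 2 * p + s < 4 * p + 2 * s + 1 + z := by omega
  have hp1 : 1 ≤ p + 1 := by omega
  refine ⟨ZMod (4 * p + 2 * s + 1 + z), inferInstance, inferInstance,
    circ _ 1 p le_rfl hp', circ _ (p + 1) (2 * p + s) hp1 hD', ⟨?_, ?_, ?_, ?_⟩, ?_⟩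
  · exact circ_disj _ p (2 * p + s) hp' hD' hn hp1 (by omega)
  · intro v
    have := circ_degree _ 1 p le_rfl hp' (by omega) (by omega) v
    rw [Nat.add_sub_cancel] at this
    convert this
  · intro v
    have := circ_degree _ (p + 1) (2 * p + s) hp1 hD' hn (by omega) v
    have e : 2 * (2 * p + s + 1 - (p + 1)) = 2 * p + 2 * s := by omega
    rw [e] at this
    convert this
  · intro v
    rw [near_eq, near_eq]
    have h1 := near_le2 _ p (2 * p + s) hp' hD' hp1 (by omega) hn v
    have h2 := near_ge2 _ p (2 * p + s) hp' hD' hp1 (by omega) hn v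
    have h3 := arith1 p s z hz hs hc
    exact lt_of_le_of_lt h1 (lt_of_lt_of_le h3 h2)
  · rw [ZMod.card]

/-- Let `b < r` be even.

1. If `z ≤ b / 2` and `(r - b) (b + r + 1) < z (z + (r - b) - 1)`, then there is a `(b, r)`-flip
   graph with `b + r + 1 + z` vertices, so `h b r ≤ b + r + 1 + z`.
2. In particular, with `m` the integer part of the square root of `(r - b) (b + r + 1)`, if
   `2 (m + 1) ≤ b`, then `b + r + 1 < h b r ≤ b + r + 2 + m`. -/
theorem result : ∀ b r : ℕ, Even b → Even r → b < r →
    (∀ z : ℕ, 2 * z ≤ b → (r - b) * (b + r + 1) < z * (z + (r - b) - 1) →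
      b + r + 1 + z ∈ orders b r ∧ h b r ≤ b + r + 1 + z) ∧
    (2 * (Nat.sqrt ((r - b) * (b + r + 1)) + 1) ≤ b →
      b + r + 1 < h b r ∧ h b r ≤ b + r + 2 + Nat.sqrt ((r - b) * (b + r + 1))) := by
  intro b r hb hr hbr
  have key : ∀ z : ℕ, 2 * z ≤ b → (r - b) * (b + r + 1) < z * (z + (r - b) - 1) →
      b + r + 1 + z ∈ orders b r ∧ h b r ≤ b + r + 1 + z := by
    intro z hz hc
    obtain ⟨p, hp⟩ := hb
    obtain ⟨q, hq⟩ := hr
    obtain ⟨s, rfl⟩ : ∃ s, q = p + s := ⟨q - p, by omega⟩
    have e1 : b = 2 * p := by omega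
    have e2 : r = 2 * p + 2 * s := by omega
    subst e1
    subst e2
    have e3 : 2 * p + 2 * s - 2 * p = 2 * s := by omega
    have e4 : 2 * p + (2 * p + 2 * s) + 1 = 4 * p + 2 * s + 1 := by omega
    rw [e3, e4] at hc
    rw [e4]
    have hm := circ_mem p s z (by omega) (by omega) hc
    exact ⟨hm, Nat.sInf_le hm⟩
  refine ⟨key, fun hm => ?_⟩
  set m := Nat.sqrt ((r - b) * (b + r + 1)) with hmdef
  have h1 : (r - b) * (b + r + 1) < (m + 1) * (m + 1) := by
    have := Nat.sqrt_lt'.1 (Nat.lt_succ_self (Nat.sqrt ((r - b) * (b + r + 1))))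
    rw [← hmdef] at this
    calc _ < (m.succ) ^ 2 := this
      _ = (m + 1) * (m + 1) := by rw [Nat.succ_eq_add_one, sq]
  have h2 : (m + 1) * (m + 1) ≤ (m + 1) * (m + 1 + (r - b) - 1) :=
    Nat.mul_le_mul_left _ (by omega)
  obtain ⟨k1, k2⟩ := key (m + 1) hm (lt_of_lt_of_le h1 h2)
  refine ⟨?_, by omega⟩
  have hmem : h b r ∈ orders b r := Nat.sInf_mem ⟨_, k1⟩
  obtain ⟨V, i1, i2, B, R, hF, hcard⟩ := id hmem
  have hb' : ∀ v, B.degree v = b := by
    intro v
    have := hF.blue v
    convert this
  have hr' : ∀ v, R.degree v = r := by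
    intro v
    have := hF.red v
    convert this
  have h3 := lower_general b r B R hF.disjoint hb' hr' hF.hf
  rw [hcard] at h3
  by_contra hcon
  push Not at hcon
  have h4 : (h b r : ℤ) ≤ b + r + 1 := by exact_mod_cast hcon
  have h5 : (b : ℤ) < r := by exact_mod_cast hbr
  have h6 : (0 : ℤ) ≤ b := by positivity
  nlinarith

end Pool.Agent.Results.MP_1e5ebc_co.CirculantFlipGraphs
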