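import Pool.Agent.H187F.Lower3
import Pool.Agent.H187F.Cons2

/-!
# Lower bounds for the smallest order of a flip graph

Summing the flip condition over all vertices shows that the number of open blue angles plus the
number of closed red angles is at most `K` times the number of vertices, where
`K = (b + 1).choose 2 - 1 - r`.  Counting the open red angles gives the first bound; counting the
walks of length two whose first edge is red and whose second edge is blue (first and second moment)
gives the other two.
-/

set_option autoImplicit false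

namespace Pool.Agent.Results.MP_1e5ebc_co.LowerBounds

open Classical

/-- The number of edges of `H` with both ends in the closed neighbourhood of `v` in the graph `G`. -/
noncomputable def edgesIn {V : Type} [Fintype V] (G H : SimpleGraph V) (v : V) : ℕ :=
  (H.edgeFinset.filter (fun e => ∀ x ∈ e, x = v ∨ G.Adj v x)).card

/-- The graph `B ⊔ R`, with the edges of `B` coloured blue and the edges of `R` coloured red, is a
`(b, r)`-flip graph: no edge is both blue and red, every vertex is incident with exactly `b` blue
and exactly `r` red edges, and the subgraph induced by the closed neighbourhood of any vertex has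
more blue than red edges. -/
structure IsFlip {V : Type} [Fintype V] (b r : ℕ) (B R : SimpleGraph V) : Prop where
  disjoint : ∀ x y, B.Adj x y → ¬ R.Adj x y
  blue : ∀ v, B.degree v = b
  red : ∀ v, R.degree v = r
  flip : ∀ v, edgesIn (B ⊔ R) R v < edgesIn (B ⊔ R) B v

/-- The set of all orders of `(b, r)`-flip graphs with at least one vertex. -/
def orders (b r : ℕ) : Set ℕ :=
  {n | ∃ (V : Type) (_ : Fintype V) (_ : Nonempty V) (B R : SimpleGraph V),
    IsFlip b r B R ∧ Fintype.card V = n}

/-- The smallest order of a `(b, r)`-flip graph. -/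
noncomputable def h (b r : ℕ) : ℕ := sInf (orders b r)

open Pool.Agent.H187F

theorem near_eq {V : Type} [Fintype V] (B R H : SimpleGraph V) (v : V) :
    edgesIn (B ⊔ R) H v = (near B R H v).card := by
  unfold edgesIn near
  congr 1
  ext e
  simp only [Finset.mem_filter]

theorem IsFlip.hf {V : Type} [Fintype V] {b r : ℕ} {B R : SimpleGraph V} (H : IsFlip b r B R) :
    ∀ v, (near B R R v).card < (near B R B v).card := by
  intro v
  rw [← near_eq, ← near_eq]
  exact H.flip v

theorem cons_mem (b r x : ℕ) (hbr : b < r) (hx : x ≤ b) (hpar : Even x ∨ Even r)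
    (hc : r < x + (b + 1 - x).choose 2) : (r + x + 1) * (b + 1 - x) ∈ orders b r := by
  obtain ⟨k, rfl⟩ : ∃ k, b = k + x := ⟨b - x, by omega⟩
  have e1 : k + x + 1 - x = k + 1 := by omega
  rw [e1] at hc ⊢
  have hk : 1 ≤ k := by
    by_contra hk
    have : k = 0 := by omega
    subst this
    simp at hc
    omega
  have hpar' : Even x ∨ Even (r + x + 1) := by
    rcases hpar with h | h
    · exact Or.inl h
    · by_cases hx2 : Even x
      · exact Or.inl hx2
      · right
        obtain ⟨c, hc⟩ := h
        obtain ⟨d, hd⟩ := Nat.not_even_iff_odd.1 hx2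
        exact ⟨c + d + 1, by omega⟩
  obtain ⟨P, hP, h0, hPc⟩ := exists_sym (r + x) x (by omega) hpar'
  refine ⟨ZMod (r + x + 1) × ZMod (k + 1), inferInstance, inferInstance,
    bg (k := k) P hP, rg (k := k) P hP, ⟨disj_bg_rg P hP, ?_, ?_, ?_⟩, ?_⟩
  · intro v
    have := bg_degree (k := k) P hP h0 v
    rw [hPc] at this
    convert this
  · intro v
    have := rg_degree (k := k) P hP h0 v
    rw [hPc, Nat.add_sub_cancel] at this
    convert this
  · intro v
    rw [near_eq, near_eq]
    exact cons_flip hk P hP h0 (by omega) (by rw [hPc, Nat.add_sub_cancel]; exact hc) v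
  · rw [Fintype.card_prod, ZMod.card, ZMod.card]

theorem choose_two_cast (b : ℕ) : (2 * ((b + 1).choose 2 : ℕ) : ℤ) = (b + 1) * b := by
  have h6 : 2 * (b + 1).choose 2 = (b + 1) * b := by
    rw [Nat.choose_two_right, Nat.add_sub_cancel, Nat.mul_div_cancel']
    rw [mul_comm]
    exact (Nat.even_mul_succ_self b).two_dvd
  exact_mod_cast h6

/-- Let `3 ≤ b < r` and `r + 1 + K = (b + 1).choose 2` with `K ≥ 0`, that is, let `(b, r)` be any
pair for which flip graphs exist. Then `h b r` is attained and

1. `(2 r - b) (b + r + 1) + 2 ≤ r * h b r`,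
2. `r b ^ 2 ≤ (b + 2 K) * h b r`,
3. `r (b + 1) + 1 ≤ h b r + r K` if `b + 2 ≤ r`. -/
theorem result : ∀ b r K : ℕ, 3 ≤ b → b < r → r + 1 + K = (b + 1).choose 2 →
    h b r ∈ orders b r ∧
    (2 * r - b) * (b + r + 1) + 2 ≤ r * h b r ∧
    r * b ^ 2 ≤ (b + 2 * K) * h b r ∧
    (b + 2 ≤ r → r * (b + 1) + 1 ≤ h b r + r * K) := by
  intro b r K hb3 hbr hK
  have m0 : (r + 0 + 1) * (b + 1 - 0) ∈ orders b r :=
    cons_mem b r 0 hbr (Nat.zero_le _) (Or.inl (by simp)) (by simp; omega)
  have hmem : h b r ∈ orders b r := Nat.sInf_mem ⟨_, m0⟩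
  obtain ⟨V, i1, i2, B, R, hF, hcard⟩ := id hmem
  have hb' : ∀ v, B.degree v = b := by
    intro v
    have := hF.blue v
    convert this
  have hr' : ∀ v, R.degree v = r := by
    intro v
    have := hF.red v
    convert this
  have c2 := choose_two_cast b
  have hK' : ((r : ℤ) + 1 + K) = (b + 1).choose 2 := by exact_mod_cast hK
  refine ⟨hmem, ?_, ?_, ?_⟩
  · have := lower_general b r B R hF.disjoint hb' hr' hF.hf
    rw [hcard] at this
    have e : ((2 * r - b : ℕ) : ℤ) = 2 * r - b := by
      rw [Nat.cast_sub (by omega)]; push_cast; ring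
    have : (((2 * r - b) * (b + r + 1) + 2 : ℕ) : ℤ) ≤ ((r * h b r : ℕ) : ℤ) := by
      push_cast [e]
      linarith
    exact_mod_cast this
  · have := lower_cs b r hbr B R hF.disjoint hb' hr' hF.hf
    rw [hcard] at this
    have e : (b ^ 2 + 2 * b - 2 - 2 * r : ℤ) = b + 2 * K := by nlinarith
    rw [e] at this
    have : ((r * b ^ 2 : ℕ) : ℤ) ≤ (((b + 2 * K) * h b r : ℕ) : ℤ) := by
      push_cast
      linarith
    exact_mod_cast this
  · intro hbr2
    have := lower_near b r hbr2 B R hF.disjoint hb' hr' hF.hf
    rw [hcard] at this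
    have e : (b ^ 2 + b - 2 - 2 * r : ℤ) = 2 * K := by nlinarith
    rw [e] at this
    have : ((r * (b + 1) + 1 : ℕ) : ℤ) ≤ ((h b r + r * K : ℕ) : ℤ) := by
      push_cast
      linarith
    exact_mod_cast this

end Pool.Agent.Results.MP_1e5ebc_co.LowerBounds
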