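import Pool.Agent.H187F.Cons2

/-!
# An upper bound for the smallest order of a flip graph

A triangle-free cover of the complete graph on `r + x + 1` vertices with fibres of size
`b + 1 - x`, each made into a blue clique, and a regular blue subgraph of degree `x` of the cover.
-/

set_option autoImplicit false

namespace Pool.Agent.Results.MP_1e5ebc_co.UpperBound

open Classical

/-- The number of edges of `H` with both ends in the closed neighbourhood of `v` in the graph `G`. -/
noncomputable def edgesIn {V : Type} [Fintype V] (G H : SimpleGraph V) (v : V) : ℕ :=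
  (H.edgeFinset.filter (fun e => ∀ x ∈ e, x = v ∨ G.Adj v x)).card

/-- The graph `B ⊔ R`, with the edges of `B` coloured blue and the edges of `R` coloured red, is a
`(b, r)`-flip graph: no edge is both blue and red, every vertex is incident with exactly `b` blue
and exactly `r` red edges, and the subgraph induced by the closed neighbourhood of any vertex has
more blue than red edges. -/
structure IsFlip {V : Type} [Fintype V] (b r : ℕ) (B R : SimpleGraph V) : Prop where
  disjoint : ∀ x y, B.Adj x y → ¬ R.Adj x y
  blue : ∀ v, B.degree v = b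
  red : ∀ v, R.degree v = r
  flip : ∀ v, edgesIn (B ⊔ R) R v < edgesIn (B ⊔ R) B v

/-- The set of all orders of `(b, r)`-flip graphs with at least one vertex. -/
def orders (b r : ℕ) : Set ℕ :=
  {n | ∃ (V : Type) (_ : Fintype V) (_ : Nonempty V) (B R : SimpleGraph V),
    IsFlip b r B R ∧ Fintype.card V = n}

/-- The smallest order of a `(b, r)`-flip graph. -/
noncomputable def h (b r : ℕ) : ℕ := sInf (orders b r)

open Pool.Agent.H187F

theorem near_eq {V : Type} [Fintype V] (B R H : SimpleGraph V) (v : V) :
    edgesIn (B ⊔ R) H v = (near B R H v).card := by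
  unfold edgesIn near
  congr 1
  ext e
  simp only [Finset.mem_filter]

theorem IsFlip.hf {V : Type} [Fintype V] {b r : ℕ} {B R : SimpleGraph V} (H : IsFlip b r B R) :
    ∀ v, (near B R R v).card < (near B R B v).card := by
  intro v
  rw [← near_eq, ← near_eq]
  exact H.flip v

theorem cons_mem (b r x : ℕ) (hbr : b < r) (hx : x ≤ b) (hpar : Even x ∨ Even r)
    (hc : r < x + (b + 1 - x).choose 2) : (r + x + 1) * (b + 1 - x) ∈ orders b r := by
  obtain ⟨k, rfl⟩ : ∃ k, b = k + x := ⟨b - x, by omega⟩
  have e1 : k + x + 1 - x = k + 1 := by omega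
  rw [e1] at hc ⊢
  have hk : 1 ≤ k := by
    by_contra hk
    have : k = 0 := by omega
    subst this
    simp at hc
    omega
  have hpar' : Even x ∨ Even (r + x + 1) := by
    rcases hpar with h | h
    · exact Or.inl h
    · by_cases hx2 : Even x
      · exact Or.inl hx2
      · right
        obtain ⟨c, hc⟩ := h
        obtain ⟨d, hd⟩ := Nat.not_even_iff_odd.1 hx2
        exact ⟨c + d + 1, by omega⟩
  obtain ⟨P, hP, h0, hPc⟩ := exists_sym (r + x) x (by omega) hpar'
  refine ⟨ZMod (r + x + 1) × ZMod (k + 1), inferInstance, inferInstance,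
    bg (k := k) P hP, rg (k := k) P hP, ⟨disj_bg_rg P hP, ?_, ?_, ?_⟩, ?_⟩
  · intro v
    have := bg_degree (k := k) P hP h0 v
    rw [hPc] at this
    convert this
  · intro v
    have := rg_degree (k := k) P hP h0 v
    rw [hPc, Nat.add_sub_cancel] at this
    convert this
  · intro v
    rw [near_eq, near_eq]
    exact cons_flip hk P hP h0 (by omega) (by rw [hPc, Nat.add_sub_cancel]; exact hc) v
  · rw [Fintype.card_prod, ZMod.card, ZMod.card]

/-- Let `b < r`, `x ≤ b`, let `x` or `r` be even and `r < x + (b + 1 - x).choose 2`. Then there is a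
`(b, r)`-flip graph with `(r + x + 1) (b + 1 - x)` vertices, so `h b r ≤ (r + x + 1) (b + 1 - x)`.
In particular `h b r ≤ (r + 1) (b + 1)` whenever `b < r < (b + 1).choose 2`. -/
theorem result :
    (∀ b r x : ℕ, b < r → x ≤ b → (Even x ∨ Even r) → r < x + (b + 1 - x).choose 2 →
      (r + x + 1) * (b + 1 - x) ∈ orders b r ∧ h b r ≤ (r + x + 1) * (b + 1 - x)) ∧
    (∀ b r : ℕ, b < r → r < (b + 1).choose 2 → h b r ≤ (r + 1) * (b + 1)) := by
  have key : ∀ b r x : ℕ, b < r → x ≤ b → (Even x ∨ Even r) → r < x + (b + 1 - x).choose 2 →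
      (r + x + 1) * (b + 1 - x) ∈ orders b r ∧ h b r ≤ (r + x + 1) * (b + 1 - x) := by
    intro b r x hbr hx hp hc
    have hm := cons_mem b r x hbr hx hp hc
    exact ⟨hm, Nat.sInf_le hm⟩
  refine ⟨key, fun b r hbr hr => ?_⟩
  have h1 := (key b r 0 hbr (Nat.zero_le _) (Or.inl (by simp)) (by
    rw [Nat.sub_zero]; omega)).2
  rwa [Nat.add_zero, Nat.sub_zero] at h1

end Pool.Agent.Results.MP_1e5ebc_co.UpperBound
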